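import Pool.Agent.Helper83.EIN.Main

/-!
# Project DG (MP_06d934_gt): a non-Kähler invariant Einstein metric for ALL block sizes. Definitions.

The signed number of the invariant Einstein metrics on `SU(N)/S(U(n₀) × ⋯ × U(n₃))` (with Einstein constant `1/2`)
does not depend on the block sizes: it is `-6`, and each of the 12 Kähler-Einstein metrics counts `-1`.
-/

set_option autoImplicit false

namespace Pool.Agent.Helper58.DG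

open Pool.Agent.Helper83.EIN

/-- The partial derivative. -/
noncomputable def pd {m : ℕ} (f : (Fin m → ℝ) → ℝ) (i : Fin m) (z : Fin m → ℝ) : ℝ :=
  fderiv ℝ f z (Pi.single i 1)

/-- The Jacobian determinant. -/
noncomputable def jac {m : ℕ} (f : (Fin m → ℝ) → Fin m → ℝ) (x : Fin m → ℝ) : ℝ :=
  (fderiv ℝ f x).det

/-- The sign of a real number as an integer. -/
noncomputable def sg (r : ℝ) : ℤ := ((SignType.sign r : SignType) : ℤ)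

/-- The Einstein equations without denominators; `v = (x₀₁, x₀₂, x₁₂, x₀₃, x₁₃, x₂₃)`, relative sizes `ν`. The
component of the pair `ij` with complement `kl` is
`2 x_ik x_jk x_il x_jl (x_ij - 1) + ν_k (x_ik² + x_jk² - x_ij²) x_il x_jl + ν_l (x_il² + x_jl² - x_ij²) x_ik x_jk`. -/
def PA (ν : Fin 4 → ℝ) (v : Fin 6 → ℝ) : Fin 6 → ℝ :=
  ![2 * v 3 * v 4 * v 1 * v 2 * (v 0 - 1) + ν 2 * (v 1 ^ 2 + v 2 ^ 2 - v 0 ^ 2) * v 3 * v 4 +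
      ν 3 * (v 3 ^ 2 + v 4 ^ 2 - v 0 ^ 2) * v 1 * v 2,
    2 * v 3 * v 5 * v 0 * v 2 * (v 1 - 1) + ν 1 * (v 0 ^ 2 + v 2 ^ 2 - v 1 ^ 2) * v 3 * v 5 +
      ν 3 * (v 3 ^ 2 + v 5 ^ 2 - v 1 ^ 2) * v 0 * v 2,
    2 * v 4 * v 5 * v 0 * v 1 * (v 2 - 1) + ν 0 * (v 0 ^ 2 + v 1 ^ 2 - v 2 ^ 2) * v 4 * v 5 +
      ν 3 * (v 4 ^ 2 + v 5 ^ 2 - v 2 ^ 2) * v 0 * v 1,
    2 * v 0 * v 4 * v 1 * v 5 * (v 3 - 1) + ν 1 * (v 0 ^ 2 + v 4 ^ 2 - v 3 ^ 2) * v 1 * v 5 +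
      ν 2 * (v 1 ^ 2 + v 5 ^ 2 - v 3 ^ 2) * v 0 * v 4,
    2 * v 0 * v 3 * v 2 * v 5 * (v 4 - 1) + ν 0 * (v 0 ^ 2 + v 3 ^ 2 - v 4 ^ 2) * v 2 * v 5 +
      ν 2 * (v 2 ^ 2 + v 5 ^ 2 - v 4 ^ 2) * v 0 * v 3,
    2 * v 1 * v 3 * v 2 * v 4 * (v 5 - 1) + ν 0 * (v 1 ^ 2 + v 3 ^ 2 - v 5 ^ 2) * v 2 * v 4 +
      ν 1 * (v 2 ^ 2 + v 4 ^ 2 - v 5 ^ 2) * v 1 * v 3]

/-- The relative sizes of the parameters `a, b, c, t`. -/
def nu (a b c t : ℝ) : Fin 4 → ℝ := ![t * a, t * b, t * c, 1 - t]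

theorem FA_eq (a b c t : ℝ) : FA a b c t = PA (nu a b c t) := rfl

/-- The Kähler-Einstein metric of the order `0 < 1 < 2 < 3`. -/
def kv (ν : Fin 4 → ℝ) : Fin 6 → ℝ :=
  ![ν 0 + ν 1, ν 0 + 2 * ν 1 + ν 2, ν 1 + ν 2, ν 0 + 2 * ν 1 + 2 * ν 2 + ν 3,
    ν 1 + 2 * ν 2 + ν 3, ν 2 + ν 3]

/-- The solutions for the sizes `(t/3, t/3, t/3, 1-t)` in a region `R`, for small `t`: they are finitely many,
nondegenerate, and the sum of the signs of the Jacobian determinants of `FA` is `σ`. -/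
def Reg (R : ℝ → (Fin 6 → ℝ) → Prop) (σ : ℤ) : Prop :=
  ∃ ε > 0, ∀ t, 0 < t → t < ε → ∃ Z : Finset (Fin 6 → ℝ),
    (∀ v, v ∈ Z ↔ Sol (1 / 3) (1 / 3) (1 / 3) t v ∧ R t v) ∧
    (∀ v ∈ Z, jac (FA (1 / 3) (1 / 3) (1 / 3) t) v ≠ 0) ∧
    ∑ v ∈ Z, sg (jac (FA (1 / 3) (1 / 3) (1 / 3) t) v) = σ

end Pool.Agent.Helper58.DG
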