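import Pool.Agent.Helper58.DG.Defs

/-!
# Project DG (MP_06d934_gt): goals. Every statement is a `def ... : Prop` with a complete proof in the docstring.
-/

set_option autoImplicit false

namespace Pool.Agent.Helper58.DG

open Pool.Agent.Helper83.EIN MeasureTheory Topology
open scoped ContDiff

/-! ## Part D: the degree -/

/-- **D_DIV** (the pull-back of a top form is closed).

PROOF. For a row vector `r` let `N r y` be the `(m+1) × (m+1)` matrix with row `0` equal to `r` and row `k+1` equal to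
`(pd (Φ · k) c y)_c`. Laplace (`Matrix.det_succ_row_zero`) for `r = Pi.single i 1`: `(-1)^i det (…) = det (N e_i y)`, and by
`Matrix.det_apply` (of the transpose) this is `∑ over σ with σ 0 = i of sign σ ∏_k pd (Φ · k) (σ k.succ) y`. Therefore the sum in
question is `∑_{σ : Perm (Fin (m+1))} sign σ · pd (fun y ↦ φ (Φ y) ∏_k pd (Φ · k) (σ k.succ) y) (σ 0) z`. Product rule:
the summand of `σ` is `∑_l (∂_l φ)(Φ z) ∂_{σ 0}Φ_l ∏_k ∂_{σ(k+1)}Φ_k + φ(Φ z) ∑_l (∂_{σ 0}∂_{σ(l+1)}Φ_l) ∏_{k ≠ l} ∂_{σ(k+1)}Φ_k`.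
Fix `l`. The involution `σ ↦ σ * swap 0 l.succ` changes the sign of `σ` and fixes both expressions (in the first the
product contains `∂_{σ(l+1)}Φ_l`, so it is symmetric in `σ 0`, `σ(l+1)`; in the second: symmetry of the second
derivatives of the smooth function `Φ_l`). So the sum over `σ` vanishes for each `l` (`Finset.sum_involution`). -/
def D_DIV : Prop :=
  ∀ (m : ℕ) (Φ : (Fin (m + 1) → ℝ) → Fin m → ℝ) (φ : (Fin m → ℝ) → ℝ), ContDiff ℝ ∞ Φ →
    ContDiff ℝ ∞ φ → ∀ z : Fin (m + 1) → ℝ,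
    ∑ i : Fin (m + 1), pd (fun y ↦ (-1) ^ (i : ℕ) * φ (Φ y) *
      (Matrix.of fun k j : Fin m ↦ pd (fun w ↦ Φ w k) (i.succAbove j) y).det) i z = 0

/-- **D_HOM** (homotopy invariance of the integral). USES `D_DIV`.

PROOF. `Φ z := F (z 0) (fun j ↦ z j.succ)`, `M_i` the determinant in `D_DIV`. For `z = Fin.cons s x`: `M_0 = jac (F s) x`
(chain rule; `ContinuousLinearMap.det`, `LinearMap.det_toLin'`/`LinearMap.det_toMatrix'`). Let
`G s x = χ x * φ (F s x) * jac (F s) x`: smooth in `(s, x)`, zero for `x` outside the compact set `tsupport χ`. By `D_DIV`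
`∂_s G = - χ x ∑_{j : Fin m} ∂_j [(-1)^(j+1) φ(Φ) M_{j+1}] = - ∑_j ∂_{x_j} [χ x (-1)^(j+1) (φ(Φ) M_{j+1})(s, x)]` for
`s ∈ [0,1]`, since `(∂_j χ)(x) φ(F s x) = 0` for all `x` by hypothesis. The integral over `x` of a partial derivative of a
compactly supported smooth function is `0` (`integral_bilinear_hasLineDerivAt_right_eq_neg_left_of_integrable` in
`Mathlib/Analysis/Calculus/LineDeriv/IntegrationByParts.lean` with the constant function `1`). So `I(s) = ∫ G(s, x) dx`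
has derivative `∫ ∂_s G dx = 0` on `[0,1]` (`hasDerivAt_integral_of_dominated_loc_of_deriv_le`; bound: the maximum of
`|∂_s G|` on `[-1,2] × tsupport χ` times the indicator of `tsupport χ`), and `I 0 = I 1`. -/
def D_HOM : Prop :=
  ∀ (m : ℕ), 0 < m → ∀ (F : ℝ → (Fin m → ℝ) → Fin m → ℝ) (φ χ : (Fin m → ℝ) → ℝ),
    ContDiff ℝ ∞ (fun z : ℝ × (Fin m → ℝ) ↦ F z.1 z.2) → ContDiff ℝ ∞ φ → ContDiff ℝ ∞ χ →
    HasCompactSupport χ →
    (∀ s ∈ Set.Icc (0 : ℝ) 1, ∀ x, fderiv ℝ χ x ≠ 0 → φ (F s x) = 0) →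
    ∫ x, χ x * φ (F 0 x) * jac (F 0) x = ∫ x, χ x * φ (F 1 x) * jac (F 1) x

/-- **D_LOC** (the integral near a nondegenerate zero).

PROOF. Inverse function theorem: `f` is strictly differentiable at `z` with invertible derivative
(`ContinuousLinearMap.det ≠ 0`, `ContinuousLinearEquiv.ofBijective` or `LinearEquiv.ofIsUnitDet`), so
`HasStrictFDerivAt.toOpenPartialHomeomorph` gives an open `O₁ ∋ z` on which `f` is injective and an open map. Let `O` be the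
intersection of `O₁`, the interior of `V` and the open set `{x | 0 < jac f x * jac f z}` (`jac f` is continuous). `f '' O` is open
and contains `0 = f z`, so it contains `ball 0 δ'`; `δ = δ'`. For `φ` as stated:
`∫_{x ∈ O} φ (f x) jac f x = sg (jac f z) ∫_{x ∈ O} φ (f x) |jac f x| = sg (jac f z) ∫_{y ∈ f '' O} φ y`
(`MeasureTheory.integral_image_eq_integral_abs_det_fderiv_smul`), and `∫_{f '' O} φ = ∫ φ` since `φ` vanishes outside the ball
(`setIntegral_eq_integral_of_forall_compl_eq_zero`). -/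
def D_LOC : Prop :=
  ∀ (m : ℕ) (f : (Fin m → ℝ) → Fin m → ℝ) (z : Fin m → ℝ) (V : Set (Fin m → ℝ)),
    ContDiff ℝ ∞ f → f z = 0 → jac f z ≠ 0 → V ∈ 𝓝 z →
    ∃ O : Set (Fin m → ℝ), IsOpen O ∧ z ∈ O ∧ O ⊆ V ∧ ∃ δ > 0, ∀ φ : (Fin m → ℝ) → ℝ,
      Continuous φ → (∀ y, δ ≤ ‖y‖ → φ y = 0) →
      ∫ x in O, φ (f x) * jac f x = sg (jac f z) * ∫ y, φ y

/-- **D_DEG** (the signed number of zeros is a homotopy invariant). USES `D_HOM`, `D_LOC`.

PROOF. Let `K₁` be compact with `K ⊆ interior K₁`, `K₁ ⊆ U` (`exists_compact_between`) and `χ` smooth with `χ = 1` on a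
neighbourhood `W` of `K` and support in `K₁` (smooth Urysohn, `exists_contMDiffMap_one_nhds_of_subset_interior`, or a
finite sum of bump functions composed with `Real.smoothTransition`); so `tsupport χ ⊆ K₁ ⊆ U` is compact. Let `A` be the
support (closure) of `fderiv ℝ χ`: compact, `A ⊆ U`, `A ∩ K = ∅`. `F s x ≠ 0` for `s ∈ [0,1]`, `x ∈ A`, so there is `ε₁ > 0`
with `ε₁ ≤ ‖F s x‖` there (compactness). For `z ∈ Z₀` (a subset of `K`) choose pairwise disjoint open neighbourhoods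
`V_z ⊆ W` and apply `D_LOC` to `F 0`, `z`, `V_z`: `O_z`, `δ_z`. On the compact set `K₁ \ ⋃ O_z` `F 0` has no zero (the zeros of
`F 0` in `U` are in `Z₀`): `‖F 0 x‖ ≥ ε₀ > 0`. The same for `F 1`, `Z₁`. Let `ε` be smaller than `ε₁`, `ε₀` and all `δ_z` (also for
`Z₁`) and let `φ` be a smooth function with `∫ φ = 1` and `φ y = 0` for `‖y‖ ≥ ε` (`ContDiffBump.normed`,
`ContDiffBump.integral_normed`, on `Fin m → ℝ`). Then `D_HOM` applies (`fderiv ℝ χ x ≠ 0` implies `x ∈ A`), and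
`∫ χ φ(F 0) jac (F 0) = ∑_{z ∈ Z₀} ∫_{O_z} φ(F 0 x) jac (F 0) x = ∑_{z ∈ Z₀} sg (jac (F 0) z)`: the integrand vanishes outside
`⋃ O_z` (`χ x ≠ 0` gives `x ∈ K₁`), `χ = 1` on `O_z ⊆ W`, the `O_z` are disjoint (`integral_biUnion_finset` or an indicator sum;
integrability: continuous with compact support). The same at `s = 1`. Cast to `ℤ`. -/
def D_DEG : Prop :=
  ∀ (m : ℕ), 0 < m → ∀ (F : ℝ → (Fin m → ℝ) → Fin m → ℝ) (U K : Set (Fin m → ℝ))
    (Z₀ Z₁ : Finset (Fin m → ℝ)),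
    ContDiff ℝ ∞ (fun z : ℝ × (Fin m → ℝ) ↦ F z.1 z.2) → IsOpen U → IsCompact K → K ⊆ U →
    (∀ s ∈ Set.Icc (0 : ℝ) 1, ∀ x ∈ U, F s x = 0 → x ∈ K) →
    (∀ x, x ∈ Z₀ ↔ x ∈ U ∧ F 0 x = 0) → (∀ x, x ∈ Z₁ ↔ x ∈ U ∧ F 1 x = 0) →
    (∀ x ∈ Z₀, jac (F 0) x ≠ 0) → (∀ x ∈ Z₁, jac (F 1) x ≠ 0) →
    ∑ x ∈ Z₀, sg (jac (F 0) x) = ∑ x ∈ Z₁, sg (jac (F 1) x)

/-! ## Part K: the Kähler-Einstein metrics -/

/-- **K_EQV** (equivariance).

PROOF. The six entries of `vec y` for a symmetric `y` are indexed by the pairs `ij`; `σ` induces a permutation `π` of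
`Fin 6` with `vec (fun i j ↦ x (σ i) (σ j)) = vec x ∘ π` for all symmetric `x` and `PA (ν ∘ σ) (v ∘ π) = (PA ν v) ∘ π` for all
`v : Fin 6 → ℝ` (the component of `PA` at the pair `ij` with complement `kl` is symmetric in `i, j` and in `k, l`; see its
docstring). It is enough to do this for the transpositions `swap 0 1` (`π = (1 2)(3 4)`), `swap 1 2`
(`π = (0 1)(4 5)`), `swap 2 3` (`π = (1 3)(2 4)`) and to compose (these generate `Perm (Fin 4)`), or for all 24 `σ`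
(`fin_cases`, `simp`, `ring`). With the linear equivalence `P : v ↦ v ∘ π` of `Fin 6 → ℝ` we get
`PA (ν ∘ σ) = P ∘ PA ν ∘ P⁻¹`, so the derivative at `P v` is conjugate to the derivative of `PA ν` at `v`, and the determinants
are equal (`LinearMap.det_conj`). -/
def K_EQV : Prop :=
  ∀ (ν : Fin 4 → ℝ) (x : Fin 4 → Fin 4 → ℝ), (∀ i j, x i j = x j i) →
    ∀ σ : Equiv.Perm (Fin 4),
    jac (PA fun i ↦ ν (σ i)) (vec fun i j ↦ x (σ i) (σ j)) = jac (PA ν) (vec x)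

/-- **K_LIN** (the linearised equations at the Kähler-Einstein metric have only the zero solution). Proved by
helper58. Here `x₀₁ = a+b`, `x₁₂ = b+c`, `x₂₃ = c+d`, `x₀₂ = a+2b+c`, `x₁₃ = b+2c+d`, `x₀₃ = a+2b+2c+d` and
`d_T` is the defect `w_pr - w_pq - w_qr` for `p < q < r`; `w = (w₀₁, w₀₂, w₁₂, w₀₃, w₁₃, w₂₃)`. -/
def K_LIN : Prop :=
  ∀ (a b c d : ℝ) (w : Fin 6 → ℝ), 0 < a → 0 < b → 0 < c → 0 < d →
    w 0 * ((a + 2 * b + c) * (b + c) * ((a + 2 * b + 2 * c + d) * (b + 2 * c + d))) =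
      -(a + b) * (c * (w 1 - w 0 - w 2) * ((a + 2 * b + 2 * c + d) * (b + 2 * c + d)) +
        d * (w 3 - w 0 - w 4) * ((a + 2 * b + c) * (b + c))) →
    w 2 * ((a + b) * (a + 2 * b + c) * ((b + 2 * c + d) * (c + d))) =
      -(b + c) * (a * (w 1 - w 0 - w 2) * ((b + 2 * c + d) * (c + d)) +
        d * (w 4 - w 2 - w 5) * ((a + b) * (a + 2 * b + c))) →
    w 5 * ((a + 2 * b + c) * (a + 2 * b + 2 * c + d) * ((b + c) * (b + 2 * c + d))) =
      -(c + d) * (a * (w 3 - w 1 - w 5) * ((b + c) * (b + 2 * c + d)) +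
        b * (w 4 - w 2 - w 5) * ((a + 2 * b + c) * (a + 2 * b + 2 * c + d))) →
    w 1 * ((a + b) * (b + c) * ((a + 2 * b + 2 * c + d) * (c + d))) =
      (a + 2 * b + c) * (b * (w 1 - w 0 - w 2) * ((a + 2 * b + 2 * c + d) * (c + d)) -
        d * (w 3 - w 1 - w 5) * ((a + b) * (b + c))) →
    w 4 * ((b + c) * (c + d) * ((a + b) * (a + 2 * b + 2 * c + d))) =
      (b + 2 * c + d) * (c * (w 4 - w 2 - w 5) * ((a + b) * (a + 2 * b + 2 * c + d)) -
        a * (w 3 - w 0 - w 4) * ((b + c) * (c + d))) →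
    w 3 * ((a + b) * (b + 2 * c + d) * ((a + 2 * b + c) * (c + d))) =
      (a + 2 * b + 2 * c + d) * (b * (w 3 - w 0 - w 4) * ((a + 2 * b + c) * (c + d)) +
        c * (w 3 - w 1 - w 5) * ((a + b) * (b + 2 * c + d))) →
    w = 0

/-- **K_DET** (the Kähler-Einstein metrics are nondegenerate). USES `K_LIN`.

PROOF. If `jac (PA ν) (kv ν) = 0` there is `w ≠ 0` with `fderiv ℝ (PA ν) (kv ν) w = 0`
(`LinearMap.bot_lt_ker_of_det_eq_zero` or `LinearMap.exists_ne_zero..`), so `s ↦ PA ν (kv ν + s • w)` has derivative `0` at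
`0`. Compute the six components (as in `FB_nondeg`, `Pool/Agent/Helper83/EIN/RegB.lean`): with `ν = (a, b, c, d)`,
`a + b + c + d = 1` (substitute `1 = a + b + c + d`, `PA` contains `v_i - 1`) the component `ij` of the derivative is
`2 x_ik x_jk x_il x_jl` times the linearisation of `x_ij - 1 + ν_k cos_k + ν_l cos_l`, where
`cos_k = (x_ik² + x_jk² - x_ij²)/(2 x_ik x_jk)`; at the Kähler-Einstein metric all triangles are degenerate and the
derivative of `cos_k` is `± (x_ij/(x_ik x_jk)) d_T`, `T = {i,j,k}`: the sign is `-` if `k` is between `i` and `j` and `+` otherwise.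
(Example: `ij = 01`, `kl = 23`: `w₀ + c (x₀₁/(x₀₂x₁₂)) (w₁ - w₀ - w₂) + d (x₀₁/(x₀₃x₁₃)) (w₃ - w₀ - w₄) = 0`.) The six equations are
twice (up to a positive factor) the six equations of `K_LIN` (each of them by `linear_combination` with the
factor `1/2` or so; the factor of the equation `ij` is `1` if it is multiplied by `x_ik x_jk x_il x_jl`). So `w = 0`. -/
def K_DET : Prop :=
  ∀ ν : Fin 4 → ℝ, (∀ i, 0 < ν i) → ∑ i, ν i = 1 → jac (PA ν) (kv ν) ≠ 0

/-- **K_SGN** (all the Kähler-Einstein metrics have sign `-1`). USES `K_EQV`, `K_DET`.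

PROOF. (1) `KE ν σ i j = KE (ν ∘ σ⁻¹) 1 (σ i) (σ j)` (`Ht ν σ i = Ht (ν ∘ σ⁻¹) 1 (σ i)`, reindex the sum by `σ`), so by `K_EQV` for
`ν' = ν ∘ σ⁻¹`, `x = KE ν' 1`: `jac (PA ν) (vec (KE ν σ)) = jac (PA ν') (vec (KE ν' 1))`, and `vec (KE ν' 1) = kv ν'` (`KE_val`).
(2) `g ν = jac (PA ν) (kv ν)` is continuous in `ν` (`PA` is polynomial in `(ν, v)`; the determinant of the matrix of the
partial derivatives) and by `K_DET` not zero on the convex set `Δ = {ν | ∀ i, 0 < ν i, ∑ ν = 1}`, so its sign is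
constant on `Δ` (intermediate value theorem on the segment). (3) `g (1/4, 1/4, 1/4, 1/4) < 0`: here
`kv = (1/2, 1, 1/2, 3/2, 1, 1/2)` and the matrix of the partial derivatives is an explicit rational `6 × 6` matrix with
negative determinant (`Matrix.det_succ_row_zero`, `Fin.sum_univ_succ`, `norm_num`). -/
def K_SGN : Prop :=
  ∀ ν : Fin 4 → ℝ, (∀ i, 0 < ν i) → ∑ i, ν i = 1 → ∀ σ : Equiv.Perm (Fin 4),
    sg (jac (PA ν) (vec (KE ν σ))) = -1

/-! ## Part B: the base case (one large block) -/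

/-- **C_SGN** (counting with signs near nondegenerate limit zeros).

PROOF. As `count`, `count_set` in `Pool/Agent/Helper83/EIN/Count.lean` (copy the proofs, or use `local_zero`): for `z ∈ Z` let `g_z`
be the function of `local_zero` (its hypothesis `hD` follows from `jac (F 0) z ≠ 0`: if `s ↦ F 0 (z + s • v)` has derivative `0`
at `0` then `fderiv ℝ (F 0) z v = 0`, so `v = 0`). For small `t > 0` the `g_z t`, `z ∈ Z`, are pairwise different elements of `U` and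
zeros of `F t`, all zeros of `F t` in `K` are among them, so `S t = {g_z t | z ∈ Z}`. The function `(t, u) ↦ jac (F t) u` is
continuous (`F` is `C¹` in `(t, u)`; `fderiv ℝ (F t) u = (fderiv ℝ F (t, u)).comp (inr)`), so `jac (F t) (g_z t)` has the sign of
`jac (F 0) z` for small `t`. -/
def C_SGN : Prop :=
  ∀ (m : ℕ) (F : ℝ → (Fin m → ℝ) → Fin m → ℝ) (K : Set (Fin m → ℝ)) (Z : Finset (Fin m → ℝ))
    (U : Set (Fin m → ℝ)) (S : ℝ → Set (Fin m → ℝ)) (ε₀ : ℝ),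
    ContDiff ℝ 1 (fun z : ℝ × (Fin m → ℝ) ↦ F z.1 z.2) → IsCompact K →
    (∀ u ∈ K, F 0 u = 0 → u ∈ Z) → (∀ z ∈ Z, F 0 z = 0) → (∀ z ∈ Z, jac (F 0) z ≠ 0) →
    (∀ z ∈ Z, U ∈ 𝓝 z) → 0 < ε₀ → (∀ t, 0 < t → t < ε₀ → ∀ u ∈ S t, u ∈ K ∧ F t u = 0) →
    (∀ t, 0 < t → t < ε₀ → ∀ u ∈ U, F t u = 0 → u ∈ S t) →
    ∃ ε > 0, ∀ t, 0 < t → t < ε → ∃ Zt : Finset (Fin m → ℝ), (∀ u, u ∈ Zt ↔ u ∈ S t) ∧
      (∀ u ∈ Zt, jac (F t) u ≠ 0) ∧
      ∑ u ∈ Zt, sg (jac (F t) u) = ∑ z ∈ Z, sg (jac (F 0) z)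

/-- **C_TRF** (the Jacobian determinant in a chart).

PROOF. Differentiate `Q y (P (ψ y)) = M y (f y)` at `u` (product rule; the terms with the derivatives of `Q`, `M` vanish
since `P (ψ u) = 0`, `f u = 0`): `Q u ∘ DP(ψ u) ∘ Dψ(u) = M u ∘ Df(u)`; take determinants (`LinearMap.det_comp`,
`LinearMap.det_toLin'`). -/
def C_TRF : Prop :=
  ∀ (m : ℕ) (P ψ f : (Fin m → ℝ) → Fin m → ℝ) (Q M : (Fin m → ℝ) → Matrix (Fin m) (Fin m) ℝ)
    (u : Fin m → ℝ), ContDiff ℝ 1 P → ContDiff ℝ 1 ψ → ContDiff ℝ 1 f →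
    (∀ i j, ContDiff ℝ 1 fun y ↦ Q y i j) → (∀ i j, ContDiff ℝ 1 fun y ↦ M y i j) →
    (∀ y, (Q y).mulVec (P (ψ y)) = (M y).mulVec (f y)) → f u = 0 → P (ψ u) = 0 →
    (Q u).det * jac P (ψ u) * jac ψ u = (M u).det * jac f u

/-- **A_SUM**. USES `C_SGN`.

PROOF. Copy `gA` (`Pool/Agent/Helper83/EIN/RegA.lean`, with `a = b = c = 1/3` and `ti : TI` from
`Pool/Agent/Helper83/EIN/Main.lean`), with `C_SGN` in the place of `count_set`: `F = FA`, `Z = {![2,2,2,1,1,1]}`. The Jacobian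
matrix of `FA (1/3) (1/3) (1/3) 0` at `(2,2,2,1,1,1)` is explicit, its determinant is `-262144 < 0`. -/
def A_SUM : Prop := Reg (fun _ v ↦ 1 ≤ v 0 ∧ 1 ≤ v 1 ∧ 1 ≤ v 2) (-1)

/-- **B_SUM**. USES `C_SGN`, `C_TRF`.

PROOF. Copy `gB` (`Pool/Agent/Helper83/EIN/RegB.lean`, `a = b = c = 1/3`, `ti : TI`) with `C_SGN` in the place of `count_set`,
`F = FB (1/3) (1/3) (1/3)`: the zeros are `zB a b d`, `d = 2/3, -2/3, 0`. The Jacobian matrix of `FB … 0` at `(2/3, d, d, 1, 1, 2)`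
is explicit; the determinants are `-4194304/243`, `-4194304/243`, `2097152/243` (for `d = 0` the rows are `(8,0,0,0,0,0)`,
`(0,8/9,8/9,0,0,0)`, `(0,32/3,-32/3,0,0,0)`, `(0,0,0,8/3,0,0)`, `(0,0,0,0,8,0)`, `(0,0,0,16/3,16/3,-8/3)`). So the sum of the signs
of `jac (FB t)` is `-1`. The solutions are the `psB t u`, and the sign of `jac (FA t) (psB t u)` is that of `jac (FB t) u`: by
`FA_psB` there are `Q` (diagonal, positive at the solutions: entries `1`, `u 3 * (u 5 + t u 2)`, `1`, `(u 3 + t u 1) u 5`, `1`, `1`)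
and `M` with `Q · FA(psB t u) = M · FB t u`; `det M = t^8 · (1)` (rows `t e₀`, `t(..)e₅ + t²e₂`, `t e₅`,
`t(..)e₃ + t³e₁ + t²(..)e₀`, `t e₃`, `e₄`), `jac (psB t) = t³` (both `> 0`), and `C_TRF`. -/
def B_SUM : Prop := Reg (fun _ v ↦ v 0 < 1 ∧ 1 ≤ v 1 ∧ 1 ≤ v 2) (-1)

/-- **K_SUM**. USES `C_SGN`, `C_TRF`.

PROOF. Copy `gK` (`Pool/Agent/Helper83/EIN/RegK4.lean`, `a = b = c = 1/3`, `ti : TI`) with `C_SGN` in the place of `count_set`,
`F = FK (1/3) (1/3) (1/3)`: the zeros are `zK a b c w`, `w = 1, -1, 0` (`w0 = 0` since `gg = 0`). The Jacobian matrix of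
`FK … 0` there is explicit (use `FK_zero`); the determinants are `67108864/129140163` for `w = 1, -1` and
`-33554432/129140163` for `w = 0` (rows for `w = 0`: `(16/9,0,0,0,0,0)`, `(0,16/9,0,0,0,0)`, `(-160/81,-160/81,-16/27,0,0,0)`,
`(8/81,8/27,0,64/243,-8/27,0)`, `(-8/81,-8/27,0,64/243,8/27,0)`, `(0,0,0,0,0,8/9)`). So the sum of the signs of `jac (FK t)` is `1`.
The solutions are the `psK t u`, and the sign of `jac (FA t) (psK t u)` is the OPPOSITE of that of `jac (FK t) u`: by `FA_psK`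
there are `Q` (diagonal, positive at the solutions) and `M` with `Q · FA(psK t u) = M · FK t u`, `det M = - t^21 (positive)`
(the rows, up to the other terms and positive factors: `t³e₀`, `t⁴e₂ + t³(..e₀ + ..e₁)`, `t³e₁`, `t⁴e₃ + ..e₅ + ..e₀`, `t³e₅`,
`-t⁴e₄ + ..e₅ + ..e₁`), `jac (psK t) u = t^8 (u 0) > 0`, and `C_TRF`. -/
def K_SUM : Prop := ∃ r₀ > 0, ∀ r, 0 < r → r ≤ r₀ →
  Reg (fun t v ↦ |v 0 / t - 2 / 3| < r ∧ |v 1 / t - 4 / 3| < r ∧ |v 2 / t - 2 / 3| < r) (-1)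

/-- **N_SUM**. USES `C_SGN`, `C_TRF`.

PROOF. Copy `gN` (`Pool/Agent/Helper83/EIN/RegN.lean`, `a = b = c = 1/3`, `sc = 5/4`) with `C_SGN` in the place of `count_set`.
The Jacobian matrix of `FN (1/3) (1/3) (1/3) 0` at `(5/6,5/6,5/6,0,0,0)` is block diagonal with blocks
`(5/6,5/18,5/18; 5/18,5/6,5/18; 5/18,5/18,5/6)` and `(5/18,5/9,5/9; 5/9,5/18,5/9; 5/9,5/9,5/18)`, determinant
`390625/8503056 > 0`; `FA (psN t u) = t³ • FN t u` and `jac (psN t) = t⁶`, so the signs agree (`C_TRF` with `Q = 1`,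
`M = t³ • 1`). -/
def N_SUM : Prop := ∀ r : ℝ, 0 < r → r < 1 / 6 →
  Reg (fun t v ↦ |v 0 / t - 5 / 6| < r ∧ |v 1 / t - 5 / 6| < r ∧ |v 2 / t - 5 / 6| < r) 1

/-- **T_TOT** (the total for one large block). USES `K_EQV`, `A_SUM`, `B_SUM`, `K_SUM`, `N_SUM`.

PROOF. Copy `total` (`Pool/Agent/Helper83/EIN/Total.lean`) and `gO` (`Asm.lean`), `a = b = c = 1/3`, `ti : TI`, `cover`: the solutions
are the disjoint union of the region of `A_SUM`, of the region of `B_SUM` and its images under `s23` and `s12 ∘ s23`, of the region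
of `N_SUM`, and of the region of `K_SUM` and its images under `s12`, `s23` (`r` small as in `gO`). The images: `s12 v`, `s23 v` is
`vec` of the metric `mat v` permuted by `swap 0 1`, `swap 1 2`; `K_EQV` for `ν = nu (1/3) (1/3) (1/3) t` (invariant under these
permutations; `FA_eq`) gives `jac (FA …) (s12 v) = jac (FA …) v`, also for `s23`; `sol_s12`, `sol_s23`. The sum is
`-1 + 3 (-1) + 1 + 3 (-1) = -6`. -/
def T_TOT : Prop := Reg (fun _ _ ↦ True) (-6)

/-! ## Part E: the end -/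

/-- **E_DEG** (the signed number of solutions does not depend on the sizes). USES `D_DEG`.

PROOF. Path: `ν(s) = (1-s) nu a b c t + s nu a' b' c' t'`, `F s v = PA (ν(s)) v` (polynomial in `(s, v)`), `U = {v | ∀ i, 0 < v i}`.
`ν(s)_i > 0`, `∑ ν(s) = 1`; `ν(s) = nu a₁ b₁ c₁ t₁` with `t₁ = 1 - ν(s)₃`, `a₁ = ν(s)₀/t₁`, … . A zero of `F s` in `U` is a solution
(`FA_eq`, `sol_iff_FA`), so `bd ti` gives `t₁(a₁ + b₁) ≤ v 0` etc., `1 - t₁ ≤ v 3` etc., and `v i ≤ 2`: `v ∈ K = Icc (fun _ ↦ δ) (fun _ ↦ 2)`, `δ` the minimum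
over `i`, `s = 0, 1` of `ν(s)_i` (the coordinates are affine in `s`). `D_DEG` with `m = 6`. -/
def E_DEG : Prop :=
  ∀ (a b c t a' b' c' t' : ℝ) (Z Z' : Finset (Fin 6 → ℝ)), 0 < a → 0 < b → 0 < c →
    a + b + c = 1 → 0 < t → t < 1 → 0 < a' → 0 < b' → 0 < c' → a' + b' + c' = 1 → 0 < t' →
    t' < 1 → (∀ v, v ∈ Z ↔ Sol a b c t v) → (∀ v, v ∈ Z' ↔ Sol a' b' c' t' v) →
    (∀ v ∈ Z, jac (FA a b c t) v ≠ 0) → (∀ v ∈ Z', jac (FA a' b' c' t') v ≠ 0) →
    ∑ v ∈ Z, sg (jac (FA a b c t) v) = ∑ v ∈ Z', sg (jac (FA a' b' c' t') v)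

/-- The metric `x` is a nondegenerate solution of `Ric = g/2`: no infinitesimal change `w` of `x` preserves the
equations. -/
def NonDeg (n : Fin 4 → ℕ) (x : Fin 4 → Fin 4 → ℝ) : Prop :=
  ∀ w : Fin 4 → Fin 4 → ℝ, (∀ i j, w i j = w j i) → (∀ i, w i i = 0) →
    (∀ i j, i ≠ j → HasDerivAt (fun s : ℝ ↦ ric n (x + s • w) i j) 0 0) → w = 0

/-- **E_FIN** (the end). USES `E_DEG`, `T_TOT`, `K_SGN`.

PROOF. Let `ν i = n i/N`, `t = 1 - ν 3`, `a = ν 0/t`, `b = ν 1/t`, `c = ν 2/t` (see `sizes`, `kaehler_all`, `apriori_all` in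
`Pool/Agent/Helper83/EIN/Main.lean`, `ein_iff`, `normEin_iff` in `Link.lean`): `x ↦ vec x` is a bijection from the metrics with
`IsEinstein n (1/2)` to the solutions of `Sol a b c t`. Suppose all solutions are Kähler or, for the second statement, `Z` is
the finite set of all the solutions, all nondegenerate. The Kähler solutions are 12 (`kaehler_all`), each is `KE ν σ`
(`exists_perm`), so has `sg = -1` by `K_SGN` (`FA_eq`). (1) If there are no others: the set of solutions is finite with 12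
elements, all nondegenerate, and the sum of the signs is `-12`; by `T_TOT` (choose `t' < min ε 1`) and `E_DEG` it is `-6`:
contradiction. (2) Nondegenerate in the sense of `NonDeg` implies `jac (FA a b c t) (vec x) ≠ 0`: if `fderiv … w' = 0` with `w' ≠ 0` then
`w = mat w'` violates `NonDeg`: near `x` the component `ij` of `FA` is a smooth positive function times `x_ij - 1 + ∑ ν_k cos_k
= x_ij (1 - 2 ric_ij)` (`ric_eq`, `Link.lean`), so the derivative of `ric n (x + s • w) i j` at `0` is `0` for all `i ≠ j`. Then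
`-6 = ∑_Z sg = -12 + ∑_{non Kähler} sg ≤ -12 + #(non Kähler)`, so there are at least `6` non-Kähler solutions. -/
def E_FIN : Prop :=
  ∀ n : Fin 4 → ℕ, (∀ i, 0 < n i) →
    (∃ x : Fin 4 → Fin 4 → ℝ, IsMetric x ∧ IsEinstein n (1 / 2) x ∧ ¬ IsKaehler x) ∧
    ∀ Z : Finset (Fin 4 → Fin 4 → ℝ), (∀ x, x ∈ Z ↔ IsMetric x ∧ IsEinstein n (1 / 2) x) →
      (∀ x ∈ Z, NonDeg n x) →
      ∃ Y ⊆ Z, 6 ≤ Y.card ∧ ∀ x ∈ Y, ¬ IsKaehler x

end Pool.Agent.Helper58.DG
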