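import Pool.Agent.Helper58.DG.Goals

/-!
# Project DG (MP_06d934_gt): K_LIN, the linearised equations at the Kähler-Einstein metric
-/

set_option autoImplicit false

namespace Pool.Agent.Helper58.DG

/-- The determinant of the linearised equations (up to a factor). -/
def QQ (a b c d : ℝ) : ℝ :=
  4 * a ^ 3 * b ^ 2 * c + 4 * a ^ 3 * c ^ 2 * d + 32 * a ^ 2 * b ^ 3 * c + 4 * a ^ 2 * b ^ 3 * d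
  + 44 * a ^ 2 * b ^ 2 * c ^ 2 + 28 * a ^ 2 * b ^ 2 * c * d + 4 * a ^ 2 * b ^ 2 * d ^ 2 + 16 * a
  ^ 2 * b * c ^ 3 + 36 * a ^ 2 * b * c ^ 2 * d + 16 * a ^ 2 * c ^ 3 * d + 4 * a ^ 2 * c ^ 2 * d
  ^ 2 + 84 * a * b ^ 4 * c + 12 * a * b ^ 4 * d + 228 * a * b ^ 3 * c ^ 2 + 128 * a * b ^ 3 * c
  * d + 16 * a * b ^ 3 * d ^ 2 + 224 * a * b ^ 2 * c ^ 3 + 224 * a * b ^ 2 * c ^ 2 * d + 36 * a
  * b ^ 2 * c * d ^ 2 + 4 * a * b ^ 2 * d ^ 3 + 80 * a * b * c ^ 4 + 128 * a * b * c ^ 3 * d +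
  28 * a * b * c ^ 2 * d ^ 2 + 12 * a * c ^ 4 * d + 4 * a * c ^ 3 * d ^ 2 + 64 * b ^ 5 * c + 240
  * b ^ 4 * c ^ 2 + 80 * b ^ 4 * c * d + 352 * b ^ 3 * c ^ 3 + 224 * b ^ 3 * c ^ 2 * d + 16 * b
  ^ 3 * c * d ^ 2 + 240 * b ^ 2 * c ^ 4 + 228 * b ^ 2 * c ^ 3 * d + 44 * b ^ 2 * c ^ 2 * d ^ 2 +
  64 * b * c ^ 5 + 84 * b * c ^ 4 * d + 32 * b * c ^ 3 * d ^ 2 + 4 * b * c ^ 2 * d ^ 3

theorem QQ_pos {a b c d : ℝ} (ha : 0 < a) (hb : 0 < b) (hc : 0 < c) (hd : 0 < d) :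
    0 < QQ a b c d := by
  unfold QQ
  positivity

theorem sys_zero {a b c d e f g h : ℝ} (ha : 0 < a) (hb : 0 < b) (hc : 0 < c) (hd : 0 < d)
    (E1 : ((a + b) * (b + c) * (a + 2 * b + c)) * e = (a + 2 * b + c) ^ 2 * (b * e - d * h) +
      (a + b) ^ 2 * (c * e + d * g) + (b + c) ^ 2 * (a * e + d * f))
    (E2 : ((b + c) * (c + d) * (b + 2 * c + d)) * f = (b + 2 * c + d) ^ 2 * (c * f - a * g) +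
      (b + c) ^ 2 * (a * e + d * f) + (c + d) ^ 2 * (a * h + b * f))
    (E3 : ((a + b) * (b + 2 * c + d) * (a + 2 * b + 2 * c + d)) * g =
      (a + 2 * b + 2 * c + d) ^ 2 * (b * g + c * h) + (a + b) ^ 2 * (c * e + d * g) -
      (b + 2 * c + d) ^ 2 * (c * f - a * g))
    (E4 : ((a + 2 * b + c) * (c + d) * (a + 2 * b + 2 * c + d)) * h =
      (a + 2 * b + 2 * c + d) ^ 2 * (b * g + c * h) - (a + 2 * b + c) ^ 2 * (b * e - d * h) +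
      (c + d) ^ 2 * (a * h + b * f)) :
    e = 0 ∧ f = 0 ∧ g = 0 ∧ h = 0 := by
  have hQ := QQ_pos ha hb hc hd
  have hX : 0 < (a + b) * (b + c) * (c + d) * QQ a b c d := by positivity
  have k0 : (a + b) * (b + c) * (c + d) * QQ a b c d * e = 0 := by
    unfold QQ
    linear_combination
      (-2 * a ^ 3 * b * c ^ 2 - 16 * a ^ 2 * b ^ 2 * c ^ 2 - 2 * a ^ 2 * b ^ 2 * c * d - 22 * a
      ^ 2 * b * c ^ 3 - 18 * a ^ 2 * b * c ^ 2 * d - 4 * a ^ 2 * b * c * d ^ 2 - 8 * a ^ 2 * c ^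
      4 - 8 * a ^ 2 * c ^ 3 * d - 42 * a * b ^ 3 * c ^ 2 - 6 * a * b ^ 3 * c * d - 114 * a * b ^
      2 * c ^ 3 - 88 * a * b ^ 2 * c ^ 2 * d - 22 * a * b ^ 2 * c * d ^ 2 - 2 * a * b ^ 2 * d ^
      3 - 112 * a * b * c ^ 4 - 144 * a * b * c ^ 3 * d - 68 * a * b * c ^ 2 * d ^ 2 - 20 * a *
      b * c * d ^ 3 - 2 * a * b * d ^ 4 - 40 * a * c ^ 5 - 72 * a * c ^ 4 * d - 48 * a * c ^ 3 *
      d ^ 2 - 16 * a * c ^ 2 * d ^ 3 - 2 * a * c * d ^ 4 - 32 * b ^ 4 * c ^ 2 - 120 * b ^ 3 * c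
      ^ 3 - 64 * b ^ 3 * c ^ 2 * d - 8 * b ^ 3 * c * d ^ 2 - 176 * b ^ 2 * c ^ 4 - 176 * b ^ 2 *
      c ^ 3 * d - 56 * b ^ 2 * c ^ 2 * d ^ 2 - 8 * b ^ 2 * c * d ^ 3 - 120 * b * c ^ 5 - 176 * b
      * c ^ 4 * d - 88 * b * c ^ 3 * d ^ 2 - 16 * b * c ^ 2 * d ^ 3 - 32 * c ^ 6 - 64 * c ^ 5 *
      d - 48 * c ^ 4 * d ^ 2 - 16 * c ^ 3 * d ^ 3 - 2 * c ^ 2 * d ^ 4) * E1 +
      (-2 * a ^ 3 * b * c * d - 14 * a ^ 2 * b ^ 2 * c * d - 2 * a ^ 2 * b ^ 2 * d ^ 2 - 12 * a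
      ^ 2 * b * c ^ 2 * d - 10 * a ^ 2 * b * c * d ^ 2 - 2 * a ^ 2 * b * d ^ 3 - 4 * a ^ 2 * c ^
      3 * d - 8 * a ^ 2 * c ^ 2 * d ^ 2 - 2 * a ^ 2 * c * d ^ 3 - 36 * a * b ^ 3 * c * d - 8 * a
      * b ^ 3 * d ^ 2 - 68 * a * b ^ 2 * c ^ 2 * d - 50 * a * b ^ 2 * c * d ^ 2 - 8 * a * b ^ 2
      * d ^ 3 - 42 * a * b * c ^ 3 * d - 50 * a * b * c ^ 2 * d ^ 2 - 10 * a * b * c * d ^ 3 - 4
      * a * c ^ 4 * d - 8 * a * c ^ 3 * d ^ 2 - 2 * a * c ^ 2 * d ^ 3 - 28 * b ^ 4 * c * d - 4 *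
      b ^ 4 * d ^ 2 - 78 * b ^ 3 * c ^ 2 * d - 42 * b ^ 3 * c * d ^ 2 - 4 * b ^ 3 * d ^ 3 - 78 *
      b ^ 2 * c ^ 3 * d - 68 * b ^ 2 * c ^ 2 * d ^ 2 - 12 * b ^ 2 * c * d ^ 3 - 28 * b * c ^ 4 *
      d - 36 * b * c ^ 3 * d ^ 2 - 14 * b * c ^ 2 * d ^ 3 - 2 * b * c * d ^ 4) * E2 +
      (-2 * a ^ 3 * b * c * d - 16 * a ^ 2 * b ^ 2 * c * d - 2 * a ^ 2 * b ^ 2 * d ^ 2 - 16 * a
      ^ 2 * b * c ^ 2 * d - 10 * a ^ 2 * b * c * d ^ 2 - 2 * a ^ 2 * b * d ^ 3 - 4 * a ^ 2 * c ^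
      3 * d - 4 * a ^ 2 * c ^ 2 * d ^ 2 - 42 * a * b ^ 3 * c * d - 6 * a * b ^ 3 * d ^ 2 - 88 *
      a * b ^ 2 * c ^ 2 * d - 50 * a * b ^ 2 * c * d ^ 2 - 8 * a * b ^ 2 * d ^ 3 - 62 * a * b *
      c ^ 3 * d - 54 * a * b * c ^ 2 * d ^ 2 - 12 * a * b * c * d ^ 3 - 2 * a * b * d ^ 4 - 12 *
      a * c ^ 4 * d - 12 * a * c ^ 3 * d ^ 2 - 2 * a * c ^ 2 * d ^ 3 - 32 * b ^ 4 * c * d - 96 *
      b ^ 3 * c ^ 2 * d - 32 * b ^ 3 * c * d ^ 2 - 108 * b ^ 2 * c ^ 3 * d - 64 * b ^ 2 * c ^ 2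
      * d ^ 2 - 4 * b ^ 2 * c * d ^ 3 - 52 * b * c ^ 4 * d - 44 * b * c ^ 3 * d ^ 2 - 8 * b * c
      ^ 2 * d ^ 3 - 8 * c ^ 5 * d - 8 * c ^ 4 * d ^ 2 - 2 * c ^ 3 * d ^ 3) * E3 +
      (-2 * a ^ 3 * c ^ 2 * d + 2 * a ^ 2 * b ^ 2 * c * d - 12 * a ^ 2 * b * c ^ 2 * d - 2 * a ^
      2 * b * c * d ^ 2 - 10 * a ^ 2 * c ^ 3 * d - 6 * a ^ 2 * c ^ 2 * d ^ 2 - 2 * a ^ 2 * c * d
      ^ 3 + 14 * a * b ^ 3 * c * d + 2 * a * b ^ 3 * d ^ 2 + 8 * a * b ^ 2 * c ^ 2 * d + 12 * a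
      * b ^ 2 * c * d ^ 2 + 2 * a * b ^ 2 * d ^ 3 - 14 * a * b * c ^ 3 * d - 8 * a * b * c ^ 2 *
      d ^ 2 - 6 * a * b * c * d ^ 3 - 12 * a * c ^ 4 * d - 16 * a * c ^ 3 * d ^ 2 - 10 * a * c ^
      2 * d ^ 3 - 2 * a * c * d ^ 4 + 16 * b ^ 4 * c * d + 40 * b ^ 3 * c ^ 2 * d + 16 * b ^ 3 *
      c * d ^ 2 + 36 * b ^ 2 * c ^ 3 * d + 24 * b ^ 2 * c ^ 2 * d ^ 2 + 12 * b * c ^ 4 * d + 12
      * b * c ^ 3 * d ^ 2 + 2 * b * c ^ 2 * d ^ 3) * E4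
  have k1 : (a + b) * (b + c) * (c + d) * QQ a b c d * f = 0 := by
    unfold QQ
    linear_combination
      (-2 * a ^ 4 * b * c - 14 * a ^ 3 * b ^ 2 * c - 2 * a ^ 3 * b ^ 2 * d - 12 * a ^ 3 * b * c
      ^ 2 - 10 * a ^ 3 * b * c * d - 2 * a ^ 3 * b * d ^ 2 - 4 * a ^ 3 * c ^ 3 - 8 * a ^ 3 * c ^
      2 * d - 2 * a ^ 3 * c * d ^ 2 - 36 * a ^ 2 * b ^ 3 * c - 8 * a ^ 2 * b ^ 3 * d - 68 * a ^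
      2 * b ^ 2 * c ^ 2 - 50 * a ^ 2 * b ^ 2 * c * d - 8 * a ^ 2 * b ^ 2 * d ^ 2 - 42 * a ^ 2 *
      b * c ^ 3 - 50 * a ^ 2 * b * c ^ 2 * d - 10 * a ^ 2 * b * c * d ^ 2 - 4 * a ^ 2 * c ^ 4 -
      8 * a ^ 2 * c ^ 3 * d - 2 * a ^ 2 * c ^ 2 * d ^ 2 - 28 * a * b ^ 4 * c - 4 * a * b ^ 4 * d
      - 78 * a * b ^ 3 * c ^ 2 - 42 * a * b ^ 3 * c * d - 4 * a * b ^ 3 * d ^ 2 - 78 * a * b ^ 2
      * c ^ 3 - 68 * a * b ^ 2 * c ^ 2 * d - 12 * a * b ^ 2 * c * d ^ 2 - 28 * a * b * c ^ 4 -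
      36 * a * b * c ^ 3 * d - 14 * a * b * c ^ 2 * d ^ 2 - 2 * a * b * c * d ^ 3) * E1 +
      (-2 * a ^ 4 * b ^ 2 - 2 * a ^ 4 * b * d - 2 * a ^ 4 * c * d - 16 * a ^ 3 * b ^ 3 - 16 * a
      ^ 3 * b ^ 2 * c - 16 * a ^ 3 * b ^ 2 * d - 8 * a ^ 3 * b * c ^ 2 - 20 * a ^ 3 * b * c * d
      - 2 * a ^ 3 * c ^ 2 * d - 48 * a ^ 2 * b ^ 4 - 88 * a ^ 2 * b ^ 3 * c - 48 * a ^ 2 * b ^ 3
      * d - 56 * a ^ 2 * b ^ 2 * c ^ 2 - 68 * a ^ 2 * b ^ 2 * c * d - 8 * a ^ 2 * b * c ^ 3 - 22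
      * a ^ 2 * b * c ^ 2 * d - 4 * a ^ 2 * b * c * d ^ 2 - 64 * a * b ^ 5 - 176 * a * b ^ 4 * c
      - 72 * a * b ^ 4 * d - 176 * a * b ^ 3 * c ^ 2 - 144 * a * b ^ 3 * c * d - 8 * a * b ^ 3 *
      d ^ 2 - 64 * a * b ^ 2 * c ^ 3 - 88 * a * b ^ 2 * c ^ 2 * d - 18 * a * b ^ 2 * c * d ^ 2 -
      6 * a * b * c ^ 3 * d - 2 * a * b * c ^ 2 * d ^ 2 - 32 * b ^ 6 - 120 * b ^ 5 * c - 40 * b
      ^ 5 * d - 176 * b ^ 4 * c ^ 2 - 112 * b ^ 4 * c * d - 8 * b ^ 4 * d ^ 2 - 120 * b ^ 3 * c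
      ^ 3 - 114 * b ^ 3 * c ^ 2 * d - 22 * b ^ 3 * c * d ^ 2 - 32 * b ^ 2 * c ^ 4 - 42 * b ^ 2 *
      c ^ 3 * d - 16 * b ^ 2 * c ^ 2 * d ^ 2 - 2 * b ^ 2 * c * d ^ 3) * E2 +
      (-2 * a ^ 4 * b * d + 2 * a ^ 3 * b ^ 2 * c - 10 * a ^ 3 * b ^ 2 * d - 6 * a ^ 3 * b * c *
      d - 2 * a ^ 3 * b * d ^ 2 + 2 * a ^ 3 * c ^ 2 * d + 12 * a ^ 2 * b ^ 3 * c - 16 * a ^ 2 *
      b ^ 3 * d + 24 * a ^ 2 * b ^ 2 * c ^ 2 - 8 * a ^ 2 * b ^ 2 * c * d - 6 * a ^ 2 * b ^ 2 * d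
      ^ 2 + 16 * a ^ 2 * b * c ^ 3 + 12 * a ^ 2 * b * c ^ 2 * d - 2 * a ^ 2 * b * c * d ^ 2 + 2
      * a ^ 2 * c ^ 3 * d + 12 * a * b ^ 4 * c - 12 * a * b ^ 4 * d + 36 * a * b ^ 3 * c ^ 2 -
      14 * a * b ^ 3 * c * d - 10 * a * b ^ 3 * d ^ 2 + 40 * a * b ^ 2 * c ^ 3 + 8 * a * b ^ 2 *
      c ^ 2 * d - 12 * a * b ^ 2 * c * d ^ 2 - 2 * a * b ^ 2 * d ^ 3 + 16 * a * b * c ^ 4 + 14 *
      a * b * c ^ 3 * d + 2 * a * b * c ^ 2 * d ^ 2) * E3 +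
      (-2 * a ^ 4 * c * d - 2 * a ^ 3 * b ^ 3 - 8 * a ^ 3 * b ^ 2 * c - 2 * a ^ 3 * b ^ 2 * d -
      4 * a ^ 3 * b * c ^ 2 - 12 * a ^ 3 * b * c * d - 8 * a ^ 3 * c ^ 2 * d - 2 * a ^ 3 * c * d
      ^ 2 - 8 * a ^ 2 * b ^ 4 - 44 * a ^ 2 * b ^ 3 * c - 12 * a ^ 2 * b ^ 3 * d - 64 * a ^ 2 * b
      ^ 2 * c ^ 2 - 54 * a ^ 2 * b ^ 2 * c * d - 4 * a ^ 2 * b ^ 2 * d ^ 2 - 32 * a ^ 2 * b * c
      ^ 3 - 50 * a ^ 2 * b * c ^ 2 * d - 10 * a ^ 2 * b * c * d ^ 2 - 6 * a ^ 2 * c ^ 3 * d - 2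
      * a ^ 2 * c ^ 2 * d ^ 2 - 8 * a * b ^ 5 - 52 * a * b ^ 4 * c - 12 * a * b ^ 4 * d - 108 *
      a * b ^ 3 * c ^ 2 - 62 * a * b ^ 3 * c * d - 4 * a * b ^ 3 * d ^ 2 - 96 * a * b ^ 2 * c ^
      3 - 88 * a * b ^ 2 * c ^ 2 * d - 16 * a * b ^ 2 * c * d ^ 2 - 32 * a * b * c ^ 4 - 42 * a
      * b * c ^ 3 * d - 16 * a * b * c ^ 2 * d ^ 2 - 2 * a * b * c * d ^ 3) * E4
  have k2 : (a + b) * (b + c) * (c + d) * QQ a b c d * g = 0 := by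
    unfold QQ
    linear_combination
      (-2 * a ^ 3 * b * c ^ 2 - 16 * a ^ 2 * b ^ 2 * c ^ 2 - 2 * a ^ 2 * b ^ 2 * c * d - 16 * a
      ^ 2 * b * c ^ 3 - 10 * a ^ 2 * b * c ^ 2 * d - 2 * a ^ 2 * b * c * d ^ 2 - 4 * a ^ 2 * c ^
      4 - 4 * a ^ 2 * c ^ 3 * d - 42 * a * b ^ 3 * c ^ 2 - 6 * a * b ^ 3 * c * d - 88 * a * b ^
      2 * c ^ 3 - 50 * a * b ^ 2 * c ^ 2 * d - 8 * a * b ^ 2 * c * d ^ 2 - 62 * a * b * c ^ 4 -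
      54 * a * b * c ^ 3 * d - 12 * a * b * c ^ 2 * d ^ 2 - 2 * a * b * c * d ^ 3 - 12 * a * c ^
      5 - 12 * a * c ^ 4 * d - 2 * a * c ^ 3 * d ^ 2 - 32 * b ^ 4 * c ^ 2 - 96 * b ^ 3 * c ^ 3 -
      32 * b ^ 3 * c ^ 2 * d - 108 * b ^ 2 * c ^ 4 - 64 * b ^ 2 * c ^ 3 * d - 4 * b ^ 2 * c ^ 2
      * d ^ 2 - 52 * b * c ^ 5 - 44 * b * c ^ 4 * d - 8 * b * c ^ 3 * d ^ 2 - 8 * c ^ 6 - 8 * c
      ^ 5 * d - 2 * c ^ 4 * d ^ 2) * E1 +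
      (-2 * a ^ 3 * b * c * d + 2 * a ^ 2 * b ^ 2 * c ^ 2 - 10 * a ^ 2 * b ^ 2 * c * d - 6 * a ^
      2 * b * c ^ 2 * d - 2 * a ^ 2 * b * c * d ^ 2 + 2 * a ^ 2 * c ^ 3 * d + 12 * a * b ^ 3 * c
      ^ 2 - 16 * a * b ^ 3 * c * d + 24 * a * b ^ 2 * c ^ 3 - 8 * a * b ^ 2 * c ^ 2 * d - 6 * a
      * b ^ 2 * c * d ^ 2 + 16 * a * b * c ^ 4 + 12 * a * b * c ^ 3 * d - 2 * a * b * c ^ 2 * d
      ^ 2 + 2 * a * c ^ 4 * d + 12 * b ^ 4 * c ^ 2 - 12 * b ^ 4 * c * d + 36 * b ^ 3 * c ^ 3 -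
      14 * b ^ 3 * c ^ 2 * d - 10 * b ^ 3 * c * d ^ 2 + 40 * b ^ 2 * c ^ 4 + 8 * b ^ 2 * c ^ 3 *
      d - 12 * b ^ 2 * c ^ 2 * d ^ 2 - 2 * b ^ 2 * c * d ^ 3 + 16 * b * c ^ 5 + 14 * b * c ^ 4 *
      d + 2 * b * c ^ 3 * d ^ 2) * E2 +
      (-2 * a ^ 3 * b * c * d - 16 * a ^ 2 * b ^ 2 * c * d - 2 * a ^ 2 * b ^ 2 * d ^ 2 - 10 * a
      ^ 2 * b * c ^ 2 * d - 2 * a ^ 2 * b * c * d ^ 2 - 42 * a * b ^ 3 * c * d - 6 * a * b ^ 3 *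
      d ^ 2 + 6 * a * b ^ 2 * c ^ 3 - 54 * a * b ^ 2 * c ^ 2 * d - 16 * a * b ^ 2 * c * d ^ 2 -
      2 * a * b ^ 2 * d ^ 3 + 8 * a * b * c ^ 4 - 14 * a * b * c ^ 3 * d - 4 * a * b * c ^ 2 * d
      ^ 2 - 2 * a * c ^ 4 * d - 32 * b ^ 4 * c * d + 8 * b ^ 3 * c ^ 3 - 64 * b ^ 3 * c ^ 2 * d
      - 8 * b ^ 3 * c * d ^ 2 + 16 * b ^ 2 * c ^ 4 - 40 * b ^ 2 * c ^ 3 * d - 8 * b ^ 2 * c ^ 2
      * d ^ 2 + 8 * b * c ^ 5 - 8 * b * c ^ 4 * d - 2 * c ^ 5 * d) * E3 +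
      (-2 * a ^ 3 * c ^ 2 * d - 4 * a ^ 2 * b ^ 2 * c ^ 2 - 2 * a ^ 2 * b ^ 2 * c * d - 4 * a ^
      2 * b * c ^ 3 - 16 * a ^ 2 * b * c ^ 2 * d - 2 * a ^ 2 * b * c * d ^ 2 - 8 * a ^ 2 * c ^ 3
      * d - 2 * a ^ 2 * c ^ 2 * d ^ 2 - 18 * a * b ^ 3 * c ^ 2 - 6 * a * b ^ 3 * c * d - 40 * a
      * b ^ 2 * c ^ 3 - 50 * a * b ^ 2 * c ^ 2 * d - 8 * a * b ^ 2 * c * d ^ 2 - 24 * a * b * c
      ^ 4 - 50 * a * b * c ^ 3 * d - 16 * a * b * c ^ 2 * d ^ 2 - 2 * a * b * c * d ^ 3 - 6 * a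
      * c ^ 4 * d - 2 * a * c ^ 3 * d ^ 2 - 16 * b ^ 4 * c ^ 2 - 48 * b ^ 3 * c ^ 3 - 24 * b ^ 3
      * c ^ 2 * d - 48 * b ^ 2 * c ^ 4 - 40 * b ^ 2 * c ^ 3 * d - 4 * b ^ 2 * c ^ 2 * d ^ 2 - 16
      * b * c ^ 5 - 18 * b * c ^ 4 * d - 4 * b * c ^ 3 * d ^ 2) * E4
  have k3 : (a + b) * (b + c) * (c + d) * QQ a b c d * h = 0 := by
    unfold QQ
    linear_combination
      (-2 * a ^ 3 * b * c ^ 2 + 2 * a ^ 2 * b ^ 3 * c - 12 * a ^ 2 * b ^ 2 * c ^ 2 - 2 * a ^ 2 *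
      b ^ 2 * c * d - 10 * a ^ 2 * b * c ^ 3 - 6 * a ^ 2 * b * c ^ 2 * d - 2 * a ^ 2 * b * c * d
      ^ 2 + 14 * a * b ^ 4 * c + 2 * a * b ^ 4 * d + 8 * a * b ^ 3 * c ^ 2 + 12 * a * b ^ 3 * c
      * d + 2 * a * b ^ 3 * d ^ 2 - 14 * a * b ^ 2 * c ^ 3 - 8 * a * b ^ 2 * c ^ 2 * d - 6 * a *
      b ^ 2 * c * d ^ 2 - 12 * a * b * c ^ 4 - 16 * a * b * c ^ 3 * d - 10 * a * b * c ^ 2 * d ^
      2 - 2 * a * b * c * d ^ 3 + 16 * b ^ 5 * c + 40 * b ^ 4 * c ^ 2 + 16 * b ^ 4 * c * d + 36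
      * b ^ 3 * c ^ 3 + 24 * b ^ 3 * c ^ 2 * d + 12 * b ^ 2 * c ^ 4 + 12 * b ^ 2 * c ^ 3 * d + 2
      * b ^ 2 * c ^ 2 * d ^ 2) * E1 +
      (-2 * a ^ 3 * b * c * d - 2 * a ^ 2 * b ^ 4 - 8 * a ^ 2 * b ^ 3 * c - 2 * a ^ 2 * b ^ 3 *
      d - 4 * a ^ 2 * b ^ 2 * c ^ 2 - 12 * a ^ 2 * b ^ 2 * c * d - 8 * a ^ 2 * b * c ^ 2 * d - 2
      * a ^ 2 * b * c * d ^ 2 - 8 * a * b ^ 5 - 44 * a * b ^ 4 * c - 12 * a * b ^ 4 * d - 64 * a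
      * b ^ 3 * c ^ 2 - 54 * a * b ^ 3 * c * d - 4 * a * b ^ 3 * d ^ 2 - 32 * a * b ^ 2 * c ^ 3
      - 50 * a * b ^ 2 * c ^ 2 * d - 10 * a * b ^ 2 * c * d ^ 2 - 6 * a * b * c ^ 3 * d - 2 * a
      * b * c ^ 2 * d ^ 2 - 8 * b ^ 6 - 52 * b ^ 5 * c - 12 * b ^ 5 * d - 108 * b ^ 4 * c ^ 2 -
      62 * b ^ 4 * c * d - 4 * b ^ 4 * d ^ 2 - 96 * b ^ 3 * c ^ 3 - 88 * b ^ 3 * c ^ 2 * d - 16
      * b ^ 3 * c * d ^ 2 - 32 * b ^ 2 * c ^ 4 - 42 * b ^ 2 * c ^ 3 * d - 16 * b ^ 2 * c ^ 2 * d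
      ^ 2 - 2 * b ^ 2 * c * d ^ 3) * E2 +
      (-2 * a ^ 3 * b * c * d - 4 * a ^ 2 * b ^ 3 * c - 2 * a ^ 2 * b ^ 3 * d - 4 * a ^ 2 * b ^
      2 * c ^ 2 - 16 * a ^ 2 * b ^ 2 * c * d - 2 * a ^ 2 * b ^ 2 * d ^ 2 - 8 * a ^ 2 * b * c ^ 2
      * d - 2 * a ^ 2 * b * c * d ^ 2 - 18 * a * b ^ 4 * c - 6 * a * b ^ 4 * d - 40 * a * b ^ 3
      * c ^ 2 - 50 * a * b ^ 3 * c * d - 8 * a * b ^ 3 * d ^ 2 - 24 * a * b ^ 2 * c ^ 3 - 50 * a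
      * b ^ 2 * c ^ 2 * d - 16 * a * b ^ 2 * c * d ^ 2 - 2 * a * b ^ 2 * d ^ 3 - 6 * a * b * c ^
      3 * d - 2 * a * b * c ^ 2 * d ^ 2 - 16 * b ^ 5 * c - 48 * b ^ 4 * c ^ 2 - 24 * b ^ 4 * c *
      d - 48 * b ^ 3 * c ^ 3 - 40 * b ^ 3 * c ^ 2 * d - 4 * b ^ 3 * c * d ^ 2 - 16 * b ^ 2 * c ^
      4 - 18 * b ^ 2 * c ^ 3 * d - 4 * b ^ 2 * c ^ 2 * d ^ 2) * E3 +
      (-2 * a ^ 3 * c ^ 2 * d - 8 * a ^ 2 * b ^ 2 * c ^ 2 - 4 * a ^ 2 * b ^ 2 * c * d - 8 * a ^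
      2 * b * c ^ 3 - 16 * a ^ 2 * b * c ^ 2 * d - 2 * a ^ 2 * b * c * d ^ 2 - 6 * a ^ 2 * c ^ 3
      * d - 2 * a ^ 2 * c ^ 2 * d ^ 2 - 2 * a * b ^ 5 - 8 * a * b ^ 4 * c - 2 * a * b ^ 4 * d -
      40 * a * b ^ 3 * c ^ 2 - 14 * a * b ^ 3 * c * d - 64 * a * b ^ 2 * c ^ 3 - 54 * a * b ^ 2
      * c ^ 2 * d - 10 * a * b ^ 2 * c * d ^ 2 - 32 * a * b * c ^ 4 - 42 * a * b * c ^ 3 * d -
      16 * a * b * c ^ 2 * d ^ 2 - 2 * a * b * c * d ^ 3 + 8 * b ^ 5 * c + 16 * b ^ 4 * c ^ 2 +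
      8 * b ^ 4 * c * d + 8 * b ^ 3 * c ^ 3 + 6 * b ^ 3 * c ^ 2 * d) * E4
  exact ⟨(mul_eq_zero.1 k0).resolve_left hX.ne', (mul_eq_zero.1 k1).resolve_left hX.ne',
    (mul_eq_zero.1 k2).resolve_left hX.ne', (mul_eq_zero.1 k3).resolve_left hX.ne'⟩

/-- **K_LIN**. -/
theorem k_lin : K_LIN := by
  intro a b c d w ha hb hc hd h0 h2 h5 h1 h4 h3
  have p01 : 0 < a + b := by positivity
  have p12 : 0 < b + c := by positivity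
  have p23 : 0 < c + d := by positivity
  have p02 : 0 < a + 2 * b + c := by positivity
  have p13 : 0 < b + 2 * c + d := by positivity
  have p03 : 0 < a + 2 * b + 2 * c + d := by positivity
  obtain ⟨e, he⟩ : ∃ e, w 1 - w 0 - w 2 = (a + b) * (b + c) * (a + 2 * b + c) * e :=
    ⟨(w 1 - w 0 - w 2) / ((a + b) * (b + c) * (a + 2 * b + c)), by field_simp⟩
  obtain ⟨f, hf⟩ : ∃ f, w 4 - w 2 - w 5 = (b + c) * (c + d) * (b + 2 * c + d) * f :=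
    ⟨(w 4 - w 2 - w 5) / ((b + c) * (c + d) * (b + 2 * c + d)), by field_simp⟩
  obtain ⟨g, hg⟩ : ∃ g, w 3 - w 0 - w 4 =
      (a + b) * (b + 2 * c + d) * (a + 2 * b + 2 * c + d) * g :=
    ⟨(w 3 - w 0 - w 4) / ((a + b) * (b + 2 * c + d) * (a + 2 * b + 2 * c + d)), by field_simp⟩
  obtain ⟨h, hh⟩ : ∃ h, w 3 - w 1 - w 5 =
      (a + 2 * b + c) * (c + d) * (a + 2 * b + 2 * c + d) * h :=
    ⟨(w 3 - w 1 - w 5) / ((a + 2 * b + c) * (c + d) * (a + 2 * b + 2 * c + d)), by field_simp⟩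
  rw [he, hg] at h0
  rw [he, hf] at h2
  rw [hh, hf] at h5
  rw [he, hh] at h1
  rw [hf, hg] at h4
  rw [hg, hh] at h3
  have w0 : w 0 = -((a + b) ^ 2 * (c * e + d * g)) := by
    refine mul_right_cancel₀ (b := (a + 2 * b + c) * (b + c) *
      ((a + 2 * b + 2 * c + d) * (b + 2 * c + d))) (by positivity) ?_
    linear_combination h0
  have w2 : w 2 = -((b + c) ^ 2 * (a * e + d * f)) := by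
    refine mul_right_cancel₀ (b := (a + b) * (a + 2 * b + c) *
      ((b + 2 * c + d) * (c + d))) (by positivity) ?_
    linear_combination h2
  have w5 : w 5 = -((c + d) ^ 2 * (a * h + b * f)) := by
    refine mul_right_cancel₀ (b := (a + 2 * b + c) * (a + 2 * b + 2 * c + d) *
      ((b + c) * (b + 2 * c + d))) (by positivity) ?_
    linear_combination h5
  have w1 : w 1 = (a + 2 * b + c) ^ 2 * (b * e - d * h) := by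
    refine mul_right_cancel₀ (b := (a + b) * (b + c) *
      ((a + 2 * b + 2 * c + d) * (c + d))) (by positivity) ?_
    linear_combination h1
  have w4 : w 4 = (b + 2 * c + d) ^ 2 * (c * f - a * g) := by
    refine mul_right_cancel₀ (b := (b + c) * (c + d) *
      ((a + b) * (a + 2 * b + 2 * c + d))) (by positivity) ?_
    linear_combination h4
  have w3 : w 3 = (a + 2 * b + 2 * c + d) ^ 2 * (b * g + c * h) := by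
    refine mul_right_cancel₀ (b := (a + b) * (b + 2 * c + d) *
      ((a + 2 * b + c) * (c + d))) (by positivity) ?_
    linear_combination h3
  rw [w0, w1, w2] at he
  rw [w4, w2, w5] at hf
  rw [w3, w0, w4] at hg
  rw [w3, w1, w5] at hh
  obtain ⟨z1, z2, z3, z4⟩ := sys_zero ha hb hc hd (e := e) (f := f) (g := g) (h := h)
    (by linear_combination -he) (by linear_combination -hf) (by linear_combination -hg)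
    (by linear_combination -hh)
  funext i
  fin_cases i
  · show w 0 = 0
    rw [w0, z1, z3]; ring
  · show w 1 = 0
    rw [w1, z1, z4]; ring
  · show w 2 = 0
    rw [w2, z1, z2]; ring
  · show w 3 = 0
    rw [w3, z3, z4]; ring
  · show w 4 = 0
    rw [w4, z2, z3]; ring
  · show w 5 = 0
    rw [w5, z4, z2]; ring

end Pool.Agent.Helper58.DG
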