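import Pool.Agent.Helper58.DG.KLIN
import Pool.Agent.Helper91.DG.D_DIV
import Pool.Agent.Helper9.DG.D_HOM
import Pool.Agent.Helper83.DG.D_LOC
import Pool.Agent.Helper86.DG.D_DEG
import Pool.Agent.Helper90.DG.K_EQV
import Pool.Agent.Helper85.DG.K_DET
import Pool.Agent.Helper93.DG.K_SGN
import Pool.Agent.Helper30.DG.C_SGN
import Pool.Agent.Helper8.DG.C_TRF
import Pool.Agent.Helper3.DG.A_SUM
import Pool.Agent.Helper13.DG.B_SUM
import Pool.Agent.Helper33.DG.K_SUM
import Pool.Agent.Helper31.DG.N_SUM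
import Pool.Agent.Helper59.DG.T_TOT
import Pool.Agent.Helper24.DG.E_DEG
import Pool.Agent.Helper54.DG.E_FIN

/-!
# Project DG (MP_06d934_gt): the assembly
-/

set_option autoImplicit false

namespace Pool.Agent.Helper58.DG

theorem d_deg : D_DEG :=
  _root_.Pool.Agent.Helper86.DG.d_deg
    (_root_.Pool.Agent.Helper9.DG.d_hom _root_.Pool.Agent.Helper91.DG.d_div)
    _root_.Pool.Agent.Helper83.DG.d_loc

theorem c_sgn : C_SGN := _root_.Pool.Agent.Helper30.DG.c_sgn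

theorem c_trf : C_TRF := _root_.Pool.Agent.Helper8.DG.c_trf

theorem k_eqv : K_EQV := _root_.Pool.Agent.Helper90.DG.k_eqv

theorem k_sgn : K_SGN :=
  _root_.Pool.Agent.Helper93.DG.k_sgn k_eqv (_root_.Pool.Agent.Helper85.DG.k_det k_lin)

theorem t_tot : T_TOT :=
  _root_.Pool.Agent.Helper59.DG.t_tot k_eqv (_root_.Pool.Agent.Helper3.DG.a_sum c_sgn)
    (_root_.Pool.Agent.Helper13.DG.b_sum c_sgn c_trf)
    (_root_.Pool.Agent.Helper33.DG.k_sum c_sgn c_trf)
    (_root_.Pool.Agent.Helper31.DG.n_sum c_sgn c_trf)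

/-- **E_FIN**, unconditional. -/
theorem e_fin : E_FIN :=
  _root_.Pool.Agent.Helper54.DG.e_fin (_root_.Pool.Agent.Helper24.DG.e_deg d_deg) t_tot k_sgn

end Pool.Agent.Helper58.DG
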